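import Mathlib

/-!
The action of a matrix on one tensor factor: `K ^ ι ⊗ ... ⊗ K ^ ι ⊗ K ^ κ` is the space of the
functions on `(Fin n → ι) × κ`.
-/

set_option autoImplicit false

namespace Pool.Agent.E8helper6.TG

open Matrix Module

/-- the index set of `V ^ (⊗ n) ⊗ U` -/
abbrev Idx (ι κ : Type*) (n : ℕ) := (Fin n → ι) × κ

variable {K : Type*} [Field K] {ι : Type*} [Fintype ι] [DecidableEq ι] {κ : Type*} {n : ℕ}

/-- replace the `k`-th coordinate by `i` -/
def upd (u : Idx ι κ n) (k : Fin n) (i : ι) : Idx ι κ n := (Function.update u.1 k i, u.2)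

omit [Fintype ι] [DecidableEq ι] in
@[simp] lemma upd_self (u : Idx ι κ n) (k : Fin n) : upd u k (u.1 k) = u := by
  simp [upd]

omit [Fintype ι] [DecidableEq ι] in
@[simp] lemma upd_fst_self (u : Idx ι κ n) (k : Fin n) (i : ι) : (upd u k i).1 k = i := by
  simp [upd]

omit [Fintype ι] [DecidableEq ι] in
lemma upd_fst_ne (u : Idx ι κ n) {k l : Fin n} (h : l ≠ k) (i : ι) : (upd u k i).1 l = u.1 l := by
  simp [upd, h]

omit [Fintype ι] [DecidableEq ι] in
@[simp] lemma upd_upd (u : Idx ι κ n) (k : Fin n) (i j : ι) : upd (upd u k i) k j = upd u k j := by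
  simp [upd]

omit [Fintype ι] [DecidableEq ι] in
lemma upd_comm (u : Idx ι κ n) {k l : Fin n} (h : k ≠ l) (i j : ι) :
    upd (upd u k i) l j = upd (upd u l j) k i := by
  simp only [upd]
  rw [Function.update_comm h]

omit [Fintype ι] [DecidableEq ι] in
@[simp] lemma upd_snd (u : Idx ι κ n) (k : Fin n) (i : ι) : (upd u k i).2 = u.2 := rfl

/-- the matrix `z` acting on the `k`-th factor -/
def act (z : Matrix ι ι K) (k : Fin n) : (Idx ι κ n → K) →ₗ[K] (Idx ι κ n → K) where
  toFun v u := ∑ j, z (u.1 k) j * v (upd u k j)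
  map_add' v w := by
    funext u
    simp [mul_add, Finset.sum_add_distrib]
  map_smul' c v := by
    funext u
    simp only [Pi.smul_apply, smul_eq_mul, RingHom.id_apply, Finset.mul_sum]
    exact Finset.sum_congr rfl fun j _ => by ring

omit [DecidableEq ι] in
lemma act_apply (z : Matrix ι ι K) (k : Fin n) (v : Idx ι κ n → K) (u : Idx ι κ n) :
    act z k v u = ∑ j, z (u.1 k) j * v (upd u k j) := rfl

/-- the restriction of a tensor to a line in the direction of the `k`-th coordinate -/
def slice (v : Idx ι κ n → K) (k : Fin n) (u : Idx ι κ n) : ι → K := fun i => v (upd u k i)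

omit [DecidableEq ι] in
lemma slice_act (z : Matrix ι ι K) (k : Fin n) (v : Idx ι κ n → K) (u : Idx ι κ n) :
    slice (act z k v) k u = Matrix.mulVecLin z (slice v k u) := by
  funext i
  simp [slice, act_apply, Matrix.mulVec, dotProduct]

omit [DecidableEq ι] in
lemma slice_pow (z : Matrix ι ι K) (k : Fin n) (p : ℕ) (v : Idx ι κ n → K) (u : Idx ι κ n) :
    slice (((act z k) ^ p) v) k u = ((Matrix.mulVecLin z) ^ p) (slice v k u) := by
  induction p generalizing v with
  | zero => rfl
  | succ p ih =>
    rw [pow_succ, pow_succ, Module.End.mul_apply, Module.End.mul_apply, ih, slice_act]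

omit [DecidableEq ι] in
lemma act_comm (z z' : Matrix ι ι K) {k l : Fin n} (h : k ≠ l) :
    Commute (act (κ := κ) z k : End K (Idx ι κ n → K)) (act z' l) := by
  refine LinearMap.ext fun v => funext fun u => ?_
  simp only [Module.End.mul_apply, act_apply, Finset.mul_sum]
  rw [Finset.sum_comm]
  refine Finset.sum_congr rfl fun i _ => Finset.sum_congr rfl fun j _ => ?_
  rw [upd_fst_ne u h.symm, upd_fst_ne u h, upd_comm u h]
  ring

/-- the contraction of `r ⊗ w` over all factors but the `k`-th one -/
def contr [Fintype κ] (k : Fin n) (r w : Idx ι κ n → K) : Matrix ι ι K :=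
  Matrix.of fun i j => ∑ u, if u.1 k = i then r u * w (upd u k j) else 0

lemma sum_swap [Fintype κ] (k : Fin n) (i j : ι) (r w : Idx ι κ n → K) :
    (∑ u, if u.1 k = i then w u * r (upd u k j) else 0) =
      ∑ u, if u.1 k = j then r u * w (upd u k i) else 0 := by
  rw [← Finset.sum_filter, ← Finset.sum_filter]
  refine Finset.sum_nbij' (fun u => upd u k j) (fun u => upd u k i) ?_ ?_ ?_ ?_ ?_
  · intro u hu
    simp
  · intro u hu
    simp
  · intro u hu
    rw [Finset.mem_filter] at hu
    simp [← hu.2]
  · intro u hu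
    rw [Finset.mem_filter] at hu
    simp [← hu.2]
  · intro u hu
    rw [Finset.mem_filter] at hu
    have e : upd u k i = u := by rw [← hu.2, upd_self]
    rw [upd_upd, e, mul_comm]

lemma pairing_act [Fintype κ] (z : Matrix ι ι K) (k : Fin n) (r w : Idx ι κ n → K) :
    ∑ u, w u * act z k r u = (z * contr k r w).trace := by
  have e1 : ∀ u : Idx ι κ n, w u * act z k r u =
      ∑ i, ∑ j, (if u.1 k = i then z i j * (w u * r (upd u k j)) else 0) := by
    intro u
    rw [Finset.sum_eq_single (u.1 k)]
    · rw [act_apply, Finset.mul_sum]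
      refine Finset.sum_congr rfl fun j _ => ?_
      rw [if_pos rfl]; ring
    · intro i _ hi
      refine Finset.sum_eq_zero fun j _ => ?_
      rw [if_neg (Ne.symm hi)]
    · intro h; exact absurd (Finset.mem_univ _) h
  simp only [e1]
  rw [Finset.sum_comm]
  simp only [Matrix.trace, Matrix.diag_apply, Matrix.mul_apply]
  refine Finset.sum_congr rfl fun i _ => ?_
  rw [Finset.sum_comm]
  refine Finset.sum_congr rfl fun j _ => ?_
  have e2 : ∀ u : Idx ι κ n, (if u.1 k = i then z i j * (w u * r (upd u k j)) else 0) =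
      z i j * (if u.1 k = i then w u * r (upd u k j) else 0) := by
    intro u
    split_ifs <;> simp
  simp only [e2]
  rw [← Finset.mul_sum, sum_swap]
  rfl

end Pool.Agent.E8helper6.TG
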