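import Mathlib
import Pool.Agent.E8helper6.TG.Act

/-!
A generic linear combination of commuting endomorphisms: its kernel is at most as large as the
simultaneous generalised eigenspace for the eigenvalue zero.
-/

set_option autoImplicit false

namespace Pool.Agent.E8helper6.TG

open Module Module.End

section general

variable {K M : Type*} [Field K] [AddCommGroup M] [Module K M]

lemma maxGen_le_range (f : End K M) {ν : K} (hν : ν ≠ 0) :
    f.maxGenEigenspace ν ≤ LinearMap.range f := by
  intro v hv
  rw [mem_maxGenEigenspace] at hv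
  obtain ⟨p, hp⟩ := hv
  induction p generalizing v with
  | zero =>
    rw [pow_zero, Module.End.one_apply] at hp
    rw [hp]; exact Submodule.zero_mem _
  | succ p ih =>
    rw [pow_succ, Module.End.mul_apply] at hp
    have h1 := ih hp
    have h2 : ν • v ∈ LinearMap.range f := by
      have e : ν • v = f v - (f - ν • (1 : End K M)) v := by
        simp
      rw [e]
      exact Submodule.sub_mem _ ⟨v, rfl⟩ h1
    have h3 := Submodule.smul_mem _ ν⁻¹ h2
    rwa [smul_smul, inv_mul_cancel₀ hν, one_smul] at h3

lemma mem_add {f g : End K M} (h : Commute f g) {a b : K} {v : M}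
    (hf : v ∈ f.maxGenEigenspace a) (hg : v ∈ g.maxGenEigenspace b) :
    v ∈ (f + g).maxGenEigenspace (a + b) := by
  rw [mem_maxGenEigenspace] at hf hg ⊢
  obtain ⟨p, hp⟩ := hf
  obtain ⟨q, hq⟩ := hg
  refine ⟨p + q, ?_⟩
  have e : f + g - (a + b) • (1 : End K M) = (f - a • (1 : End K M)) + (g - b • (1 : End K M)) := by
    rw [add_smul]; abel
  have hc : Commute (f - a • (1 : End K M)) (g - b • (1 : End K M)) := by
    have c1 : Commute f (b • (1 : End K M)) := (Commute.one_right f).smul_right b
    have c2 : Commute (a • (1 : End K M)) g := (Commute.one_left g).smul_left a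
    have c3 : Commute (a • (1 : End K M)) (b • (1 : End K M)) :=
      ((Commute.one_left (1 : End K M)).smul_left a).smul_right b
    exact (h.sub_right c1).sub_left (c2.sub_right c3)
  rw [e, hc.add_pow, LinearMap.sum_apply]
  refine Finset.sum_eq_zero fun i hi => ?_
  rw [Finset.mem_range] at hi
  by_cases hip : p ≤ i
  · have e1 : (f - a • (1 : End K M)) ^ i * (g - b • (1 : End K M)) ^ (p + q - i) *
        (((p + q).choose i : ℕ) : End K M) = (g - b • (1 : End K M)) ^ (p + q - i) *
        (((p + q).choose i : ℕ) : End K M) * ((f - a • (1 : End K M)) ^ (i - p) * (f - a • (1 : End K M)) ^ p) := by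
      rw [← pow_add, Nat.sub_add_cancel hip]
      have c1 := (hc.pow_pow i (p + q - i))
      have c2 : Commute ((f - a • (1 : End K M)) ^ i) (((p + q).choose i : ℕ) : End K M) :=
        Nat.commute_cast _ _
      rw [c1.eq, mul_assoc, c2.eq, ← mul_assoc]
    rw [e1]
    simp only [Module.End.mul_apply, hp, map_zero]
  · have hiq : q ≤ p + q - i := by omega
    have e1 : (f - a • (1 : End K M)) ^ i * (g - b • (1 : End K M)) ^ (p + q - i) *
        (((p + q).choose i : ℕ) : End K M) = (f - a • (1 : End K M)) ^ i *
        (((p + q).choose i : ℕ) : End K M) * ((g - b • (1 : End K M)) ^ (p + q - i - q) *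
          (g - b • (1 : End K M)) ^ q) := by
      rw [← pow_add, Nat.sub_add_cancel hiq]
      have c2 : Commute ((g - b • (1 : End K M)) ^ (p + q - i)) (((p + q).choose i : ℕ) : End K M) :=
        Nat.commute_cast _ _
      rw [mul_assoc, c2.eq, ← mul_assoc]
    rw [e1]
    simp only [Module.End.mul_apply, hq, map_zero]

lemma mem_smul {f : End K M} (c : K) {a : K} {v : M} (hf : v ∈ f.maxGenEigenspace a) :
    v ∈ (c • f).maxGenEigenspace (c * a) := by
  rw [mem_maxGenEigenspace] at hf ⊢
  obtain ⟨p, hp⟩ := hf
  refine ⟨p, ?_⟩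
  have e : c • f - (c * a) • (1 : End K M) = c • (f - a • (1 : End K M)) := by
    rw [smul_sub, smul_smul]
  rw [e, smul_pow, LinearMap.smul_apply, hp, smul_zero]

lemma mem_sum {τ : Type*} (s : Finset τ) (f : τ → End K M)
    (hc : Pairwise fun i j => Commute (f i) (f j)) (c χ : τ → K) {v : M}
    (hv : ∀ i, v ∈ (f i).maxGenEigenspace (χ i)) :
    v ∈ (∑ i ∈ s, c i • f i).maxGenEigenspace (∑ i ∈ s, c i * χ i) := by
  classical
  induction s using Finset.induction_on with
  | empty =>
    rw [Finset.sum_empty, Finset.sum_empty, mem_maxGenEigenspace]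
    exact ⟨1, by simp⟩
  | insert a s ha ih =>
    rw [Finset.sum_insert ha, Finset.sum_insert ha]
    refine mem_add ?_ (mem_smul (c a) (hv a)) ih
    refine Commute.sum_right _ _ _ fun i hi => ?_
    have : a ≠ i := fun h => ha (h ▸ hi)
    exact ((hc this).smul_left _).smul_right _

/-- A generic combination of commuting endomorphisms has a kernel of dimension at most that of the
simultaneous generalised eigenspace of zero. -/
theorem exists_generic [FiniteDimensional K M] [IsAlgClosed K] {τ : Type*} [Fintype τ]
    (f : τ → End K M) (hc : Pairwise fun i j => Commute (f i) (f j)) :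
    ∃ c : τ → K, finrank K (LinearMap.ker (∑ i, c i • f i)) ≤
      finrank K (⨅ i, (f i).maxGenEigenspace 0 : Submodule K M) := by
  classical
  have hcomp : ∀ i j φ, Set.MapsTo (f i) ((f j).maxGenEigenspace φ) ((f j).maxGenEigenspace φ) := by
    intro i j φ
    refine mapsTo_maxGenEigenspace_of_comm ?_ φ
    rcases eq_or_ne j i with h | h
    · rw [h]
    · exact hc h
  have hind := independent_iInf_maxGenEigenspace_of_forall_mapsTo f hcomp
  have hsup := iSup_iInf_maxGenEigenspace_eq_top_of_iSup_maxGenEigenspace_eq_top_of_commute f hc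
    (fun i => iSup_maxGenEigenspace_eq_top (f i))
  set W : (τ → K) → Submodule K M := fun χ => ⨅ i, (f i).maxGenEigenspace (χ i) with hW
  have hfin : {χ | W χ ≠ ⊥}.Finite := WellFoundedGT.finite_ne_bot_of_iSupIndep hind
  -- the generic coefficients
  obtain ⟨c, hcg⟩ : ∃ c : τ → K, ∀ χ, W χ ≠ ⊥ → χ ≠ 0 → ∑ i, c i * χ i ≠ 0 := by
    have hfin' : Finite {χ : τ → K // W χ ≠ ⊥ ∧ χ ≠ 0} :=
      (hfin.subset (fun χ hχ => hχ.1)).to_subtype
    have : Infinite K := IsAlgClosed.instInfinite
    obtain ⟨φ, hφ⟩ := Module.exists_dual_forall_apply_ne_zero (K := K)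
      (fun χ : {χ : τ → K // W χ ≠ ⊥ ∧ χ ≠ 0} => (χ : τ → K)) (fun χ => χ.2.2)
    refine ⟨fun i => φ (Pi.single i 1), fun χ h1 h2 => ?_⟩
    have := hφ ⟨χ, h1, h2⟩
    have e : φ χ = ∑ i, φ (Pi.single i 1) * χ i := by
      conv_lhs => rw [← Finset.univ_sum_single χ]
      rw [map_sum]
      refine Finset.sum_congr rfl fun i _ => ?_
      have e1 : (Pi.single i (χ i) : τ → K) = χ i • (Pi.single i 1 : τ → K) := by
        rw [← Pi.single_smul, smul_eq_mul, mul_one]
      rw [e1, map_smul, smul_eq_mul, mul_comm]
    rw [← e]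
    exact this
  refine ⟨c, ?_⟩
  set y : End K M := ∑ i, c i • f i with hy
  -- all the other eigenspaces are in the range
  have hle : ⊤ ≤ W 0 ⊔ LinearMap.range y := by
    rw [← hsup]
    refine iSup_le fun χ => ?_
    change W χ ≤ _
    by_cases h0 : χ = 0
    · rw [h0]; exact le_sup_left
    by_cases hb : W χ = ⊥
    · rw [hb]; exact bot_le
    refine le_trans ?_ le_sup_right
    intro v hv
    have hv' : ∀ i, v ∈ (f i).maxGenEigenspace (χ i) := by
      intro i
      exact (Submodule.mem_iInf _).1 hv i
    exact maxGen_le_range y (hcg χ hb h0) (mem_sum Finset.univ f hc c χ hv')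
  have h1 : finrank K M ≤ finrank K (W 0) + finrank K (LinearMap.range y) := by
    calc finrank K M = finrank K (⊤ : Submodule K M) := (finrank_top K M).symm
      _ ≤ finrank K (W 0 ⊔ LinearMap.range y : Submodule K M) := Submodule.finrank_mono hle
      _ ≤ _ := Submodule.finrank_add_le_finrank_add_finrank _ _
  have h2 := LinearMap.finrank_range_add_finrank_ker y
  have h3 : W 0 = ⨅ i, (f i).maxGenEigenspace 0 := rfl
  rw [← h3]
  omega

end general

end Pool.Agent.E8helper6.TG
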