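import Mathlib
import Pool.Agent.E8helper6.TG.Corank

/-!
The dimension of the simultaneous generalised eigenspace of zero for the copies of a matrix on the
factors of a tensor power.
-/

set_option autoImplicit false

namespace Pool.Agent.E8helper6.TG

open Module Module.End

variable {K : Type*} [Field K]

/-- A subspace of `K ^ ι` is determined by as many coordinates as its dimension. -/
lemma exists_coords {ι : Type*} [Fintype ι] (W : Submodule K (ι → K)) :
    ∃ I : Finset ι, I.card ≤ finrank K W ∧ ∀ w ∈ W, (∀ i ∈ I, w i = 0) → w = 0 := by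
  classical
  set φ : ι → Dual K W := fun i => (LinearMap.proj i).comp W.subtype with hφ
  obtain ⟨τ, a, ha, hspan, hli⟩ := exists_linearIndependent' K φ
  have : Finite τ := Finite.of_injective a ha
  have := Fintype.ofFinite τ
  refine ⟨Finset.univ.image a, ?_, fun w hw h0 => ?_⟩
  · calc (Finset.univ.image a).card ≤ Fintype.card τ := Finset.card_image_le
      _ ≤ finrank K (Dual K W) := hli.fintype_card_le_finrank
      _ = finrank K W := Subspace.dual_finrank_eq
  · have hz : ∀ f ∈ Submodule.span K (Set.range (φ ∘ a)), f ⟨w, hw⟩ = 0 := by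
      intro f hf
      induction hf using Submodule.span_induction with
      | mem x hx =>
        obtain ⟨j, rfl⟩ := hx
        exact h0 (a j) (Finset.mem_image_of_mem a (Finset.mem_univ j))
      | zero => rfl
      | add x y _ _ hx hy => rw [LinearMap.add_apply, hx, hy, add_zero]
      | smul c x _ hx => rw [LinearMap.smul_apply, hx, smul_zero]
    funext i
    have h1 : φ i ∈ Submodule.span K (Set.range (φ ∘ a)) := by
      rw [hspan]; exact Submodule.subset_span ⟨i, rfl⟩
    exact hz _ h1

variable {ι : Type*} [Fintype ι] [DecidableEq ι] {κ : Type*} {n : ℕ}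

omit [DecidableEq ι] in
lemma slice_mem (z : Matrix ι ι K) (k : Fin n) {v : Idx ι κ n → K}
    (hv : v ∈ maxGenEigenspace (act (κ := κ) z k : End K (Idx ι κ n → K)) 0) (u : Idx ι κ n) :
    slice v k u ∈ maxGenEigenspace (Matrix.mulVecLin z : End K (ι → K)) 0 := by
  rw [mem_maxGenEigenspace] at hv ⊢
  obtain ⟨p, hp⟩ := hv
  refine ⟨p, ?_⟩
  rw [zero_smul, sub_zero] at hp ⊢
  rw [← slice_pow, hp]
  rfl

/-- the bound for the simultaneous generalised eigenspace -/
lemma finrank_zero_le [Fintype κ] (z : Matrix ι ι K) (n : ℕ) :
    finrank K (⨅ k : Fin n, maxGenEigenspace (act (κ := κ) z k : End K (Idx ι κ n → K)) 0 :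
      Submodule K (Idx ι κ n → K)) ≤
      Fintype.card κ * finrank K (maxGenEigenspace (Matrix.mulVecLin z : End K (ι → K)) 0) ^ n := by
  classical
  obtain ⟨I, hI, hI0⟩ := exists_coords (maxGenEigenspace (Matrix.mulVecLin z : End K (ι → K)) 0)
  set W : Submodule K (Idx ι κ n → K) :=
    ⨅ k : Fin n, maxGenEigenspace (act (κ := κ) z k : End K (Idx ι κ n → K)) 0 with hW
  -- restriction to the coordinates in `I`
  let ρ : W →ₗ[K] (((Fin n → I) × κ) → K) :=
    { toFun := fun v u => v.1 (fun k => (u.1 k : ι), u.2)
      map_add' := fun v w => rfl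
      map_smul' := fun c v => rfl }
  have hinj : Function.Injective ρ := by
    rw [← LinearMap.ker_eq_bot, LinearMap.ker_eq_bot']
    intro v hv
    have key : ∀ (m : ℕ) (u : Idx ι κ n),
        (Finset.univ.filter fun k => u.1 k ∉ I).card = m → v.1 u = 0 := by
      intro m
      induction m with
      | zero =>
        intro u hu
        rw [Finset.card_eq_zero, Finset.filter_eq_empty_iff] at hu
        have hu' : ∀ k, u.1 k ∈ I := fun k => not_not.1 (hu (Finset.mem_univ k))
        have := congrFun hv ((fun k => ⟨u.1 k, hu' k⟩), u.2)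
        exact this
      | succ m ih =>
        intro u hu
        have hne : (Finset.univ.filter fun k => u.1 k ∉ I).Nonempty := by
          rw [← Finset.card_pos]; omega
        obtain ⟨k, hk⟩ := hne
        have hkI : u.1 k ∉ I := (Finset.mem_filter.1 hk).2
        have hs := slice_mem z k (u := u) ((Submodule.mem_iInf _).1 v.2 k)
        have h0 := hI0 _ hs (by
          intro i hi
          refine ih (upd u k i) ?_
          have e : (Finset.univ.filter fun l => (upd u k i).1 l ∉ I) =
              (Finset.univ.filter fun l => u.1 l ∉ I).erase k := by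
            ext l
            simp only [Finset.mem_filter, Finset.mem_univ, true_and, Finset.mem_erase]
            by_cases hl : l = k
            · subst hl
              simp [hi]
            · rw [upd_fst_ne u hl]
              simp [hl]
          rw [e, Finset.card_erase_of_mem hk, hu]
          rfl)
        have := congrFun h0 (u.1 k)
        simpa [slice] using this
    apply Subtype.ext
    funext u
    exact key _ u rfl
  have h1 := LinearMap.finrank_le_finrank_of_injective hinj
  refine h1.trans ?_
  rw [Module.finrank_pi, Fintype.card_prod, Fintype.card_fun, Fintype.card_fin, Fintype.card_coe,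
    mul_comm]
  gcongr

/-- A generic combination of the copies of `z` has a small kernel. -/
theorem exists_combination [Fintype κ] [IsAlgClosed K] (z : Matrix ι ι K) (n : ℕ) :
    ∃ c : Fin n → K, finrank K (LinearMap.ker (∑ k, c k • (act z k : End K (Idx ι κ n → K)))) ≤
      Fintype.card κ * finrank K (maxGenEigenspace (Matrix.mulVecLin z : End K (ι → K)) 0) ^ n := by
  obtain ⟨c, hc⟩ := exists_generic (fun k : Fin n => (act z k : End K (Idx ι κ n → K)))
    (fun k l hkl => act_comm z z hkl)
  exact ⟨c, hc.trans (finrank_zero_le z n)⟩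

/-- the generalised eigenspace is not the whole space if `z` is not nilpotent -/
lemma finrank_zero_lt {z : Matrix ι ι K} (hz : ¬ IsNilpotent z) :
    finrank K (maxGenEigenspace (Matrix.mulVecLin z : End K (ι → K)) 0) < Fintype.card ι := by
  have h1 : finrank K (maxGenEigenspace (Matrix.mulVecLin z : End K (ι → K)) 0) ≤ Fintype.card ι := by
    have := Submodule.finrank_le (maxGenEigenspace (Matrix.mulVecLin z : End K (ι → K)) 0)
    rwa [Module.finrank_pi] at this
  refine lt_of_le_of_ne h1 fun h => hz ?_
  have htop : maxGenEigenspace (Matrix.mulVecLin z : End K (ι → K)) 0 = ⊤ := by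
    apply Submodule.eq_top_of_finrank_eq
    rw [h, Module.finrank_pi]
  rw [maxGenEigenspace_eq] at htop
  set p := maxGenEigenspaceIndex (Matrix.mulVecLin z : End K (ι → K)) 0
  refine ⟨p, ?_⟩
  have h2 : (Matrix.mulVecLin z : End K (ι → K)) ^ p = 0 := by
    refine LinearMap.ext fun v => ?_
    have hv : v ∈ genEigenspace (Matrix.mulVecLin z : End K (ι → K)) 0 p := by
      rw [htop]; exact Submodule.mem_top
    rw [mem_genEigenspace_nat] at hv
    simpa using hv
  have h3 : Matrix.mulVecLin (z ^ p) = 0 := by
    rw [← h2]
    clear_value p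
    clear htop h2
    induction p with
    | zero => simp [Module.End.one_eq_id]
    | succ p ih => rw [pow_succ, pow_succ, Matrix.mulVecLin_mul, ih]; rfl
  have h4 : Matrix.toLin' (z ^ p) = 0 := by rw [← h3]; rfl
  exact (LinearEquiv.map_eq_zero_iff Matrix.toLin').1 h4

end Pool.Agent.E8helper6.TG
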