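import Mathlib
import Pool.Agent.E8helper6.TG.Zero

/-!
The half law: if a matrix `z`, acting on any of the factors, maps `R` into the orthogonal complement
of the dual of `R`, then `R` is about half of the space at most.
-/

set_option autoImplicit false

namespace Pool.Agent.E8helper6.TG

open Module Module.End

variable {K : Type*} [Field K]

section orth

variable {ι : Type*} [Fintype ι] [DecidableEq ι]

/-- the trace form is nondegenerate on the space `S` of matrices -/
def TraceNondeg (S : Submodule K (Matrix ι ι K)) : Prop :=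
  ∀ s ∈ S, (∀ t ∈ S, (s * t).trace = 0) → s = 0

omit [DecidableEq ι] in
/-- Projection onto a subspace on which the trace form is nondegenerate. -/
lemma exists_proj {S : Submodule K (Matrix ι ι K)} (hS : TraceNondeg S) (x : Matrix ι ι K) :
    ∃ s ∈ S, ∀ t ∈ S, ((x - s) * t).trace = 0 := by
  classical
  let B : S →ₗ[K] Dual K S :=
    { toFun := fun s =>
        { toFun := fun t => (s.1 * t.1).trace
          map_add' := fun t t' => by simp [Matrix.mul_add]
          map_smul' := fun c t => by simp }
      map_add' := fun s s' => by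
        refine LinearMap.ext fun t => ?_
        simp [Matrix.add_mul]
      map_smul' := fun c s => by
        refine LinearMap.ext fun t => ?_
        simp }
  have hB : ∀ s t : S, B s t = (s.1 * t.1).trace := fun _ _ => rfl
  have hinj : Function.Injective B := by
    rw [← LinearMap.ker_eq_bot, LinearMap.ker_eq_bot']
    intro s hs
    apply Subtype.ext
    refine hS s.1 s.2 fun t ht => ?_
    rw [← hB s ⟨t, ht⟩, hs]; rfl
  have hsurj : Function.Surjective B :=
    (LinearMap.injective_iff_surjective_of_finrank_eq_finrank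
      (Subspace.dual_finrank_eq (K := K) (V := S)).symm).1 hinj
  let φ : Dual K S :=
    { toFun := fun t => (x * t.1).trace
      map_add' := fun t t' => by simp [Matrix.mul_add]
      map_smul' := fun c t => by simp }
  obtain ⟨s, hs⟩ := hsurj φ
  refine ⟨s.1, s.2, fun t ht => ?_⟩
  have : B s ⟨t, ht⟩ = φ ⟨t, ht⟩ := by rw [hs]
  rw [hB] at this
  rw [Matrix.sub_mul, Matrix.trace_sub, this]
  exact sub_self _

lemma trace_eq_zero_of_isNilpotent {z : Matrix ι ι K} (hz : IsNilpotent z) : z.trace = 0 := by
  exact (Matrix.isNilpotent_trace_of_isNilpotent hz).eq_zero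

/-- A proper subspace has an orthogonal element which is not nilpotent. -/
theorem exists_not_nilpotent [CharZero K] {S C : Submodule K (Matrix ι ι K)} (hS : TraceNondeg S)
    (hC : TraceNondeg C) (hSC : S ≤ C) (hne : S ≠ C) :
    ∃ z ∈ C, (∀ s ∈ S, (z * s).trace = 0) ∧ ¬ IsNilpotent z := by
  obtain ⟨x, hxC, hxS⟩ : ∃ x ∈ C, x ∉ S := by
    by_contra h
    push Not at h
    exact hne (le_antisymm hSC h)
  obtain ⟨s, hs, hxs⟩ := exists_proj hS x
  set z0 := x - s with hz0
  have hz0C : z0 ∈ C := C.sub_mem hxC (hSC hs)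
  have hz0ne : z0 ≠ 0 := by
    intro h
    rw [hz0, sub_eq_zero] at h
    exact hxS (h ▸ hs)
  obtain ⟨y, hyC, hy⟩ : ∃ y ∈ C, (z0 * y).trace ≠ 0 := by
    by_contra h
    push Not at h
    exact hz0ne (hC z0 hz0C h)
  obtain ⟨s', hs', hys'⟩ := exists_proj hS y
  set y1 := y - s' with hy1
  have hy1C : y1 ∈ C := C.sub_mem hyC (hSC hs')
  have hzy : (z0 * y1).trace ≠ 0 := by
    rw [hy1, Matrix.mul_sub, Matrix.trace_sub, hxs s' hs', sub_zero]
    exact hy
  have key : ∀ z ∈ C, (∀ s ∈ S, (z * s).trace = 0) → (z * z).trace ≠ 0 →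
      ∃ z ∈ C, (∀ s ∈ S, (z * s).trace = 0) ∧ ¬ IsNilpotent z := by
    intro z hzC hzS hzz
    refine ⟨z, hzC, hzS, fun hn => hzz ?_⟩
    apply trace_eq_zero_of_isNilpotent
    exact (Commute.refl z).isNilpotent_mul_left hn
  by_cases h1 : (z0 * z0).trace = 0
  · by_cases h2 : (y1 * y1).trace = 0
    · refine key (z0 + y1) (C.add_mem hz0C hy1C) (fun t ht => ?_) ?_
      · rw [Matrix.add_mul, Matrix.trace_add, hxs t ht, hys' t ht, add_zero]
      · rw [Matrix.add_mul, Matrix.mul_add, Matrix.mul_add, Matrix.trace_add, Matrix.trace_add,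
          Matrix.trace_add, h1, h2, Matrix.trace_mul_comm y1 z0, zero_add, add_zero, ← two_mul]
        exact mul_ne_zero two_ne_zero hzy
    · exact key y1 hy1C hys' h2
  · exact key z0 hz0C hxs h1

end orth

variable {ι : Type*} [Fintype ι] [DecidableEq ι] {κ : Type*} [Fintype κ] {n : ℕ}

/-- The half law. -/
theorem half_law [IsAlgClosed K] (z : Matrix ι ι K) (T R : Submodule K (Idx ι κ n → K))
    (R' : Set (Idx ι κ n → K)) (hRT : R ≤ T) (hT : ∀ k, ∀ v ∈ T, act z k v ∈ T)
    (hnd : ∀ r ∈ R, (∀ w ∈ R', ∑ u, w u * r u = 0) → r = 0)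
    (horth : ∀ r ∈ R, ∀ w ∈ R', ∀ k, (z * contr k r w).trace = 0) :
    2 * finrank K R ≤ finrank K T +
      Fintype.card κ * finrank K (maxGenEigenspace (Matrix.mulVecLin z : End K (ι → K)) 0) ^ n := by
  classical
  obtain ⟨c, hc⟩ := exists_combination (κ := κ) z n
  set y : End K (Idx ι κ n → K) := ∑ k, c k • (act z k : End K (Idx ι κ n → K)) with hy
  have hyv : ∀ v, y v = ∑ k, c k • act z k v := by
    intro v
    rw [hy, LinearMap.sum_apply]
    rfl
  -- the image of `R`
  set Q : Submodule K (Idx ι κ n → K) := R.map y with hQ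
  have hQT : Q ≤ T := by
    rintro _ ⟨r, hr, rfl⟩
    rw [hyv]
    exact T.sum_mem fun k _ => T.smul_mem _ (hT k r (hRT hr))
  have hQorth : ∀ q ∈ Q, ∀ w ∈ R', ∑ u, w u * q u = 0 := by
    rintro _ ⟨r, hr, rfl⟩ w hw
    have e : ∀ u, w u * y r u = ∑ k, c k * (w u * act z k r u) := by
      intro u
      rw [hyv, Finset.sum_apply, Finset.mul_sum]
      refine Finset.sum_congr rfl fun k _ => ?_
      rw [Pi.smul_apply, smul_eq_mul]; ring
    simp only [e]
    rw [Finset.sum_comm]
    refine Finset.sum_eq_zero fun k _ => ?_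
    rw [← Finset.mul_sum, pairing_act, horth r hr w hw k, mul_zero]
  have hdis : R ⊓ Q = ⊥ := by
    rw [eq_bot_iff]
    rintro r ⟨hr, hrQ⟩
    exact hnd r hr (hQorth r hrQ)
  have h1 : finrank K R + finrank K Q ≤ finrank K T := by
    have h := Submodule.finrank_sup_add_finrank_inf_eq R Q
    rw [hdis, finrank_bot, add_zero] at h
    rw [← h]
    exact Submodule.finrank_mono (sup_le hRT hQT)
  have h2 : finrank K R ≤ finrank K Q + finrank K (LinearMap.ker y) := by
    have h := LinearMap.finrank_range_add_finrank_ker (y.comp R.subtype)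
    have e1 : LinearMap.range (y.comp R.subtype) = Q := by
      rw [LinearMap.range_comp, Submodule.range_subtype]
    have e2 : finrank K (LinearMap.ker (y.comp R.subtype)) ≤ finrank K (LinearMap.ker y) := by
      let f : LinearMap.ker (y.comp R.subtype) →ₗ[K] LinearMap.ker y :=
        LinearMap.codRestrict (LinearMap.ker y)
          (R.subtype.comp (LinearMap.ker (y.comp R.subtype)).subtype) (by
            intro v
            exact v.2)
      refine LinearMap.finrank_le_finrank_of_injective (f := f) ?_
      intro v w hvw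
      have : (f v : Idx ι κ n → K) = f w := by rw [hvw]
      exact Subtype.ext (Subtype.ext this)
    rw [e1] at h
    omega
  omega

end Pool.Agent.E8helper6.TG
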