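import Mathlib
import Pool.Agent.E8helper6.TG.Half

/-!
The half law for the classes fixed by the Frobenius.
-/

set_option autoImplicit false

namespace Pool.Agent.E8helper6.TG

open Module Module.End Filter Topology

variable (K : Type*) [Field K] {G : Type*} [CommGroup G]

/-- The correspondences which commute with the Frobenius: in a basis of Frobenius eigenvectors with
the eigenvalues `α i` they are the matrices `x` with `x i j = 0` unless `α i = α j`. -/
def tateCor {ι : Type*} (α : ι → G) : Submodule K (Matrix ι ι K) where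
  carrier := {x | ∀ i j, α i ≠ α j → x i j = 0}
  add_mem' {x y} hx hy i j h := by
    rw [Matrix.add_apply, hx i j h, hy i j h, add_zero]
  zero_mem' i j _ := rfl
  smul_mem' c x hx i j h := by
    rw [Matrix.smul_apply, hx i j h, smul_zero]

/-- The Frobenius eigenvalue of the basis vector `e_{u 0} ⊗ ... ⊗ e_{u (n-1)} ⊗ f_{u.2}`. -/
def frob {ι κ : Type*} {n : ℕ} (α : ι → G) (β : κ → G) (u : Idx ι κ n) : G :=
  (∏ k, α (u.1 k)) * β u.2

/-- The Tate classes: the vectors fixed by the Frobenius. -/
def tateCls {ι κ : Type*} (α : ι → G) (β : κ → G) (n : ℕ) : Submodule K (Idx ι κ n → K) where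
  carrier := {v | ∀ u, frob α β u ≠ 1 → v u = 0}
  add_mem' {x y} hx hy u h := by
    rw [Pi.add_apply, hx u h, hy u h, add_zero]
  zero_mem' u _ := rfl
  smul_mem' c x hx u h := by
    rw [Pi.smul_apply, hx u h, smul_zero]

open scoped Classical in
/-- The number of the Frobenius eigenvalues on the cohomology of `X ^ n × Y` which are equal to one:
the dimension of the space of the Tate classes. -/
noncomputable def tateRank {ι κ : Type*} [Fintype ι] [Fintype κ] (α : ι → G) (β : κ → G) (n : ℕ) :
    ℕ :=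
  Fintype.card {u : Idx ι κ n // frob α β u = 1}

variable {K}

lemma finrank_tateCls_le {ι κ : Type*} [Fintype ι] [Fintype κ] (α : ι → G) (β : κ → G) (n : ℕ) :
    finrank K (tateCls K α β n) ≤ tateRank α β n := by
  classical
  let f : tateCls K α β n →ₗ[K] ({u : Idx ι κ n // frob α β u = 1} → K) :=
    { toFun := fun v u => v.1 u.1
      map_add' := fun v w => rfl
      map_smul' := fun c v => rfl }
  have hf : Function.Injective f := by
    rw [← LinearMap.ker_eq_bot, LinearMap.ker_eq_bot']
    intro v hv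
    apply Subtype.ext
    funext u
    by_cases hu : frob α β u = 1
    · exact congrFun hv ⟨u, hu⟩
    · exact v.2 u hu
  have h := LinearMap.finrank_le_finrank_of_injective hf
  rw [Module.finrank_pi] at h
  refine h.trans (le_of_eq ?_)
  rw [tateRank]

section

variable {ι : Type*} [Fintype ι] [DecidableEq ι]

omit [CommGroup G] in
lemma tateCor_nondeg (α : ι → G) : TraceNondeg (tateCor K α) := by
  intro s hs h
  funext i j
  by_cases hij : α i = α j
  · have hm : Matrix.single j i (1 : K) ∈ tateCor K α := by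
      intro a b hab
      rw [Matrix.single_apply]
      split_ifs with h1
      · exact absurd (by rw [← h1.1, ← h1.2, hij]) hab
      · rfl
    have h1 := h _ hm
    rw [Matrix.trace_mul_single] at h1
    simpa using h1
  · exact hs i j hij

omit [DecidableEq ι] in
lemma act_mem {κ : Type*} {n : ℕ} {α : ι → G} {β : κ → G} {z : Matrix ι ι K}
    (hz : z ∈ tateCor K α) (k : Fin n) {v : Idx ι κ n → K} (hv : v ∈ tateCls K α β n) :
    act z k v ∈ tateCls K α β n := by
  classical
  intro u hu
  rw [act_apply]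
  refine Finset.sum_eq_zero fun j _ => ?_
  by_cases hj : α (u.1 k) = α j
  · rw [hv (upd u k j), mul_zero]
    intro h1
    apply hu
    rw [← h1, frob, frob, upd_snd]
    congr 1
    refine Finset.prod_congr rfl fun l _ => ?_
    by_cases hl : l = k
    · subst hl
      rw [upd_fst_self, hj]
    · rw [upd_fst_ne u hl]
  · rw [hz _ _ hj, zero_mul]

/-- The half law for Tate classes. -/
theorem half_tate [CharZero K] [IsAlgClosed K] (α : ι → G) {S : Submodule K (Matrix ι ι K)}
    (hS : TraceNondeg S) (hSC : S ≤ tateCor K α) (hne : S ≠ tateCor K α) :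
    ∃ N : ℕ, N < Fintype.card ι ∧ ∀ (κ : Type) [Fintype κ] (β : κ → G) (n : ℕ)
      (R R' : Submodule K (Idx ι κ n → K)), R ≤ tateCls K α β n →
      (∀ r ∈ R, (∀ w ∈ R', ∑ u, w u * r u = 0) → r = 0) →
      (∀ r ∈ R, ∀ w ∈ R', ∀ k, contr k r w ∈ S) →
      2 * finrank K R ≤ tateRank α β n + Fintype.card κ * N ^ n := by
  obtain ⟨z, hzC, hzS, hz⟩ := exists_not_nilpotent hS (tateCor_nondeg α) hSC hne
  refine ⟨_, finrank_zero_lt hz, fun κ _ β n R R' hR hnd hc => ?_⟩
  have h := half_law z (tateCls K α β n) R (R' : Set (Idx ι κ n → K)) hR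
    (fun k v hv => act_mem hzC k hv) hnd (fun r hr w hw k => hzS _ (hc r hr w hw k))
  exact h.trans (Nat.add_le_add_right (finrank_tateCls_le α β n) _)

end

/-! ### The number of the Tate classes -/

section growth

variable {ι : Type*} [Fintype ι] [DecidableEq ι]

open scoped Classical in
/-- the number of words of length `n` with product one -/
noncomputable def wordCount (α : ι → G) (n : ℕ) : ℕ := Fintype.card {u : Fin n → ι // ∏ k, α (u k) = 1}

open scoped Classical in
/-- the values of the products of length `k` -/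
lemma card_image_le (α : ι → G) (k : ℕ) :
    (Finset.univ.image fun u : Fin k → ι => ∏ l, α (u l)).card ≤ (k + 1) ^ Fintype.card ι := by
  have h : (Finset.univ.image fun u : Fin k → ι => ∏ l, α (u l)) ⊆
      Finset.univ.image fun c : ι → Fin (k + 1) => ∏ i, α i ^ (c i : ℕ) := by
    intro g hg
    rw [Finset.mem_image] at hg ⊢
    obtain ⟨u, _, rfl⟩ := hg
    refine ⟨fun i => ⟨(Finset.univ.filter fun l => u l = i).card, ?_⟩, Finset.mem_univ _, ?_⟩
    · have := Finset.card_le_univ (Finset.univ.filter fun l => u l = i)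
      rw [Fintype.card_fin] at this
      omega
    · rw [← Finset.prod_fiberwise_of_maps_to (s := Finset.univ) (t := Finset.univ) (g := u)
        (fun _ _ => Finset.mem_univ _)]
      refine Finset.prod_congr rfl fun i _ => ?_
      rw [Finset.prod_congr rfl (g := fun _ => α i)
        (fun l hl => by rw [(Finset.mem_filter.1 hl).2])]
      rw [Finset.prod_const]
  calc (Finset.univ.image fun u : Fin k → ι => ∏ l, α (u l)).card
      ≤ (Finset.univ.image fun c : ι → Fin (k + 1) => ∏ i, α i ^ (c i : ℕ)).card :=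
        Finset.card_le_card h
    _ ≤ Fintype.card (ι → Fin (k + 1)) := Finset.card_image_le
    _ = (k + 1) ^ Fintype.card ι := by rw [Fintype.card_fun, Fintype.card_fin]

lemma pow_le_wordCount_even (α : ι → G) (σ : Equiv.Perm ι) (hσ : ∀ i, α (σ i) = (α i)⁻¹) (k : ℕ) :
    Fintype.card ι ^ (k + k) ≤ (k + 1) ^ Fintype.card ι * wordCount α (k + k) := by
  classical
  set I := Finset.univ.image fun u : Fin k → ι => ∏ l, α (u l) with hI
  set P : G → ℕ := fun g => (Finset.univ.filter fun u : Fin k → ι => ∏ l, α (u l) = g).card with hP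
  have h1 : ∑ g ∈ I, P g = Fintype.card ι ^ k := by
    have := Finset.card_eq_sum_card_fiberwise (s := (Finset.univ : Finset (Fin k → ι)))
      (t := I) (f := fun u => ∏ l, α (u l))
      (by
        intro u _
        exact Finset.mem_image_of_mem (fun u : Fin k → ι => ∏ l, α (u l)) (Finset.mem_univ u))
    rw [Finset.card_univ, Fintype.card_fun, Fintype.card_fin] at this
    rw [this]
  have h2 : (∑ g ∈ I, P g) ^ 2 ≤ I.card * ∑ g ∈ I, P g ^ 2 := sq_sum_le_card_mul_sum_sq
  have h3 : ∑ g ∈ I, P g ^ 2 ≤ wordCount α (k + k) := by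
    have e1 : ∑ g ∈ I, P g ^ 2 =
        (Finset.univ.filter fun p : (Fin k → ι) × (Fin k → ι) =>
          ∏ l, α (p.1 l) = ∏ l, α (p.2 l)).card := by
      rw [Finset.card_eq_sum_card_fiberwise (t := I) (f := fun p : (Fin k → ι) × (Fin k → ι) =>
        ∏ l, α (p.1 l)) (fun p _ => Finset.mem_image_of_mem
          (fun u : Fin k → ι => ∏ l, α (u l)) (Finset.mem_univ p.1))]
      refine Finset.sum_congr rfl fun g _ => ?_
      rw [hP, sq, ← Finset.card_product]
      congr 1
      ext p
      simp only [Finset.mem_product, Finset.mem_filter, Finset.mem_univ, true_and]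
      constructor
      · rintro ⟨h, h'⟩
        exact ⟨h.trans h'.symm, h⟩
      · rintro ⟨h, h'⟩
        exact ⟨h', h ▸ h'⟩
    rw [e1, wordCount, Fintype.card_subtype]
    refine Finset.card_le_card_of_injOn (fun p => Fin.append p.1 (fun l => σ (p.2 l))) ?_ ?_
    · intro p hp
      rw [Finset.mem_coe, Finset.mem_filter] at hp ⊢
      refine ⟨Finset.mem_univ _, ?_⟩
      rw [Fin.prod_univ_add]
      simp only [Fin.append_left, Fin.append_right, hσ]
      rw [Finset.prod_inv_distrib, hp.2, mul_inv_cancel]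
    · intro p _ q _ hpq
      have hpq' : ∀ l, Fin.append p.1 (fun l => σ (p.2 l)) l =
        Fin.append q.1 (fun l => σ (q.2 l)) l := fun l => congrFun hpq l
      refine Prod.ext ?_ ?_
      · funext l
        have := hpq' (Fin.castAdd k l)
        rwa [Fin.append_left, Fin.append_left] at this
      · funext l
        have := hpq' (Fin.natAdd k l)
        rw [Fin.append_right, Fin.append_right] at this
        exact σ.injective this
  have h4 : I.card ≤ (k + 1) ^ Fintype.card ι := card_image_le α k
  calc Fintype.card ι ^ (k + k) = (Fintype.card ι ^ k) ^ 2 := by ring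
    _ = (∑ g ∈ I, P g) ^ 2 := by rw [h1]
    _ ≤ I.card * ∑ g ∈ I, P g ^ 2 := h2
    _ ≤ (k + 1) ^ Fintype.card ι * wordCount α (k + k) := Nat.mul_le_mul h4 h3

omit [DecidableEq ι] in
lemma wordCount_succ (α : ι → G) {i0 : ι} (h0 : α i0 = 1) (n : ℕ) :
    wordCount α n ≤ wordCount α (n + 1) := by
  classical
  rw [wordCount, wordCount]
  refine Fintype.card_le_of_injective
    (fun u => ⟨Fin.cons i0 u.1, by rw [Fin.prod_univ_succ]; simp [h0, u.2]⟩) ?_
  intro u v huv
  have h := congrArg Subtype.val huv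
  apply Subtype.ext
  exact Fin.cons_right_injective (α := fun _ => ι) i0 h

/-- The number of the words with product one. -/
theorem pow_le_wordCount (α : ι → G) (σ : Equiv.Perm ι) (hσ : ∀ i, α (σ i) = (α i)⁻¹)
    {i0 : ι} (h0 : α i0 = 1) (n : ℕ) :
    Fintype.card ι ^ n ≤ Fintype.card ι * (n + 1) ^ Fintype.card ι * wordCount α n := by
  have hD : 1 ≤ Fintype.card ι := Fintype.card_pos_iff.2 ⟨i0⟩
  rcases Nat.even_or_odd' n with ⟨k, hk | hk⟩
  · have h1 := pow_le_wordCount_even α σ hσ k
    have e : n = k + k := by omega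
    rw [← e] at h1
    calc Fintype.card ι ^ n ≤ (k + 1) ^ Fintype.card ι * wordCount α n := h1
      _ ≤ (n + 1) ^ Fintype.card ι * wordCount α n := by gcongr; omega
      _ ≤ Fintype.card ι * ((n + 1) ^ Fintype.card ι * wordCount α n) :=
        Nat.le_mul_of_pos_left _ hD
      _ = _ := by ring
  · have h1 := pow_le_wordCount_even α σ hσ k
    have e : n = (k + k) + 1 := by omega
    calc Fintype.card ι ^ n = Fintype.card ι * Fintype.card ι ^ (k + k) := by rw [e]; ring
      _ ≤ Fintype.card ι * ((k + 1) ^ Fintype.card ι * wordCount α (k + k)) := by gcongr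
      _ ≤ Fintype.card ι * ((n + 1) ^ Fintype.card ι * wordCount α n) := by
          gcongr
          · omega
          · rw [e]; exact wordCount_succ α h0 _
      _ = _ := by ring

omit [DecidableEq ι] in
lemma wordCount_le_tateRank {κ : Type*} [Fintype κ] (α : ι → G) (β : κ → G) {j0 : κ}
    (h0 : β j0 = 1) (n : ℕ) : wordCount α n ≤ tateRank α β n := by
  classical
  rw [wordCount, tateRank]
  refine Fintype.card_le_of_injective
    (fun u => ⟨(u.1, j0), by simp [frob, h0, u.2]⟩) ?_
  intro u v huv
  have h := congrArg Subtype.val huv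
  apply Subtype.ext
  exact congrArg Prod.fst h

/-- the elementary limit -/
lemma eventually_small {N D : ℕ} (hND : N < D) (b : ℕ) {c : ℝ} (hc : (N : ℝ) / D < c) (hc0 : 0 < c) :
    ∀ᶠ n : ℕ in atTop, (b : ℝ) * N ^ n * (D * (n + 1) ^ D) ≤ c ^ n * D ^ n := by
  have hD : (0 : ℝ) < D := by
    have : 0 < D := by omega
    exact_mod_cast this
  set ρ : ℝ := N / D / c with hρ
  have hρ0 : 0 ≤ ρ := by positivity
  have hρ1 : ρ < 1 := by
    rw [hρ, div_lt_one hc0]; exact hc
  have h1 := tendsto_pow_const_mul_const_pow_of_abs_lt_one D (r := ρ) (by rwa [abs_of_nonneg hρ0])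
  have h2 : Tendsto (fun n : ℕ => (b : ℝ) * D * 2 ^ D * ((n : ℝ) ^ D * ρ ^ n)) atTop (𝓝 0) := by
    have := h1.const_mul ((b : ℝ) * D * 2 ^ D)
    rwa [mul_zero] at this
  have h3 := h2.eventually (gt_mem_nhds (show (0 : ℝ) < 1 by norm_num))
  filter_upwards [h3, eventually_ge_atTop 1] with n hn hn1
  have hn1' : (1 : ℝ) ≤ n := by exact_mod_cast hn1
  have e1 : (N : ℝ) ^ n = ρ ^ n * (c ^ n * D ^ n) := by
    rw [hρ, div_pow, div_pow]
    have : c ^ n ≠ 0 := by positivity
    have : (D : ℝ) ^ n ≠ 0 := by positivity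
    field_simp
  have e2 : ((n : ℝ) + 1) ^ D ≤ 2 ^ D * n ^ D := by
    rw [← mul_pow]
    gcongr
    linarith
  calc (b : ℝ) * N ^ n * (D * (n + 1) ^ D) = (b * D * (n + 1) ^ D * ρ ^ n) * (c ^ n * D ^ n) := by
        rw [e1]; ring
    _ ≤ (b * D * (2 ^ D * n ^ D) * ρ ^ n) * (c ^ n * D ^ n) := by gcongr
    _ = ((b : ℝ) * D * 2 ^ D * ((n : ℝ) ^ D * ρ ^ n)) * (c ^ n * D ^ n) := by ring
    _ ≤ 1 * (c ^ n * D ^ n) := by
        have : 0 ≤ c ^ n * (D : ℝ) ^ n := by positivity
        exact mul_le_mul_of_nonneg_right hn.le this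
    _ = _ := one_mul _

/-- The error term of the half law is exponentially small compared to the number of Tate classes. -/
theorem eventually_error_le (α : ι → G) (σ : Equiv.Perm ι) (hσ : ∀ i, α (σ i) = (α i)⁻¹)
    {i0 : ι} (h0 : α i0 = 1) {N : ℕ} (hN : N < Fintype.card ι) (b : ℕ) {c : ℝ}
    (hc : (N : ℝ) / Fintype.card ι < c) (hc0 : 0 < c) :
    ∀ᶠ n : ℕ in atTop, (b : ℝ) * N ^ n ≤ c ^ n * wordCount α n := by
  filter_upwards [eventually_small hN b hc hc0] with n hn
  have h1 : ((Fintype.card ι : ℝ)) ^ n ≤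
      Fintype.card ι * (n + 1) ^ Fintype.card ι * wordCount α n := by
    exact_mod_cast pow_le_wordCount α σ hσ h0 n
  have hD : (0 : ℝ) < Fintype.card ι := by
    have : 0 < Fintype.card ι := by omega
    exact_mod_cast this
  have h2 : (0 : ℝ) < Fintype.card ι * (n + 1) ^ Fintype.card ι := by positivity
  have h3 : (b : ℝ) * N ^ n * (Fintype.card ι * (n + 1) ^ Fintype.card ι) ≤
      (c ^ n * wordCount α n) * (Fintype.card ι * (n + 1) ^ Fintype.card ι) := by
    calc (b : ℝ) * N ^ n * (Fintype.card ι * (n + 1) ^ Fintype.card ι)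
        ≤ c ^ n * (Fintype.card ι : ℝ) ^ n := hn
      _ ≤ c ^ n * (Fintype.card ι * (n + 1) ^ Fintype.card ι * wordCount α n) := by gcongr
      _ = _ := by ring
  exact le_of_mul_le_mul_right h3 h2

end growth

end Pool.Agent.E8helper6.TG
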