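import Mathlib
import Pool.Agent.E8helper6.TG.Tate

/-!
The asymptotic half law and the dichotomy for the powers of one variety.
-/

set_option autoImplicit false

namespace Pool.Agent.E8helper6.TG

open Module Module.End Filter Topology

variable {K : Type*} [Field K] {G : Type*} [CommGroup G]

section

variable {ι : Type*} [Fintype ι] [DecidableEq ι]

/-- `R` and `R'` are the spaces of the classes of algebraic cycles in `V ^ (⊗ n) ⊗ U` and in its dual,
`S` is the space of the classes of the algebraic correspondences in `V ⊗ V'`: the classes in `R` are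
fixed by the Frobenius, the pairing between `R` and `R'` has no kernel in `R` (numerical
equivalence), and the contraction of a class in `R` with a class in `R'` over all factors but one
factor `V` is in `S` (composition of correspondences). -/
def IsCyclePair {κ : Type*} [Fintype κ] {n : ℕ} (α : ι → G) (β : κ → G)
    (S : Submodule K (Matrix ι ι K)) (R R' : Submodule K (Idx ι κ n → K)) : Prop :=
  R ≤ tateCls K α β n ∧ (∀ r ∈ R, (∀ w ∈ R', ∑ u, w u * r u = 0) → r = 0) ∧
    ∀ r ∈ R, ∀ w ∈ R', ∀ k, contr k r w ∈ S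

/-- The half law with its asymptotic form. -/
theorem half_asymptotic [CharZero K] [IsAlgClosed K] (α : ι → G) {S : Submodule K (Matrix ι ι K)}
    (hS : TraceNondeg S) (hSC : S ≤ tateCor K α) (hne : S ≠ tateCor K α) :
    ∃ N : ℕ, N < Fintype.card ι ∧
      (∀ (κ : Type) [Fintype κ] (β : κ → G) (n : ℕ) (R R' : Submodule K (Idx ι κ n → K)),
        IsCyclePair α β S R R' →
        2 * finrank K R ≤ tateRank α β n + Fintype.card κ * N ^ n) ∧
      ((∃ σ : Equiv.Perm ι, ∀ i, α (σ i) = (α i)⁻¹) → (∃ i, α i = 1) →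
        ∃ c : ℝ, 0 < c ∧ c < 1 ∧ ∀ (κ : Type) [Fintype κ] (β : κ → G), (∃ j, β j = 1) →
          ∀ᶠ n : ℕ in atTop, ∀ R R' : Submodule K (Idx ι κ n → K), IsCyclePair α β S R R' →
            (finrank K R : ℝ) ≤ (1 / 2 + c ^ n) * tateRank α β n) := by
  obtain ⟨N, hN, hmain⟩ := half_tate α hS hSC hne
  refine ⟨N, hN, fun κ _ β n R R' h => hmain κ β n R R' h.1 h.2.1 h.2.2, ?_⟩
  rintro ⟨σ, hσ⟩ ⟨i0, h0⟩
  have hD : (0 : ℝ) < Fintype.card ι := by
    have : 0 < Fintype.card ι := by omega
    exact_mod_cast this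
  have hρ : (N : ℝ) / Fintype.card ι < 1 := by
    rw [div_lt_one hD]; exact_mod_cast hN
  have hρ0 : 0 ≤ (N : ℝ) / Fintype.card ι := by positivity
  obtain ⟨c, hc1, hc2⟩ := exists_between hρ
  refine ⟨c, lt_of_le_of_lt hρ0 hc1, hc2, fun κ _ β ⟨j0, hj⟩ => ?_⟩
  filter_upwards [eventually_error_le α σ hσ h0 hN (Fintype.card κ) hc1 (lt_of_le_of_lt hρ0 hc1)]
    with n hn R R' h
  have h1 : (2 : ℝ) * finrank K R ≤ tateRank α β n + Fintype.card κ * N ^ n := by
    exact_mod_cast hmain κ β n R R' h.1 h.2.1 h.2.2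
  have h2 : (wordCount α n : ℝ) ≤ tateRank α β n := by
    exact_mod_cast wordCount_le_tateRank α β hj n
  have h3 : (0 : ℝ) < c ^ n := pow_pos (lt_of_le_of_lt hρ0 hc1) n
  have h4 : c ^ n * (wordCount α n : ℝ) ≤ c ^ n * tateRank α β n := by gcongr
  have h5 : (0 : ℝ) ≤ c ^ n * tateRank α β n := by positivity
  nlinarith

end

/-! ### The powers of one variety -/

/-- A word of length `k * m + r` as `k` blocks of length `m` and a rest of length `r`:
`X ^ (k m + r) = (X ^ m) ^ k × X ^ r`. -/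
def blocks (ι : Type*) (k m r : ℕ) : (Fin (k * m + r) → ι) ≃ Idx (Fin m → ι) (Fin r → ι) k where
  toFun u := (fun b l => u (Fin.castAdd r (finProdFinEquiv (b, l))), fun l => u (Fin.natAdd (k * m) l))
  invFun v := Fin.append (fun x => v.1 (finProdFinEquiv.symm x).1 (finProdFinEquiv.symm x).2) v.2
  left_inv u := by
    funext x
    refine Fin.addCases (fun y => ?_) (fun y => ?_) x
    · simp only [Fin.append_left, Prod.mk.eta, Equiv.apply_symm_apply]
    · simp only [Fin.append_right]
  right_inv v := by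
    refine Prod.ext ?_ ?_
    · funext b l
      simp only [Fin.append_left, Equiv.symm_apply_apply]
    · funext l
      simp only [Fin.append_right]

/-- The Frobenius eigenvalues on the cohomology of `X ^ n`. -/
def powEig {ι : Type*} (α : ι → G) (n : ℕ) (u : Fin n → ι) : G := ∏ k, α (u k)

/-- The classes of the algebraic cycles on all powers of a variety `X`, in a basis of Frobenius
eigenvectors of the fibre functor at `X` (the Frobenius eigenvalues are the `α i`). -/
structure CycleClasses (K : Type*) [Field K] {ι : Type*} [Fintype ι] [DecidableEq ι] (α : ι → G) where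
  /-- classes on `X ^ n` -/
  A : ∀ n : ℕ, Submodule K ((Fin n → ι) → K)
  /-- classes in the dual space -/
  A' : ∀ n : ℕ, Submodule K ((Fin n → ι) → K)
  /-- correspondences of `X ^ m` -/
  S : ∀ m : ℕ, Submodule K (Matrix (Fin m → ι) (Fin m → ι) K)
  /-- the classes are fixed by the Frobenius -/
  tate : ∀ n, ∀ x ∈ A n, ∀ u, powEig α n u ≠ 1 → x u = 0
  /-- the correspondences commute with the Frobenius -/
  tateCor : ∀ m, S m ≤ tateCor K (powEig α m)
  /-- numerical equivalence for classes -/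
  nondeg : ∀ n, ∀ r ∈ A n, (∀ w ∈ A' n, ∑ u, w u * r u = 0) → r = 0
  /-- numerical equivalence for correspondences -/
  trace_nondeg : ∀ m, TraceNondeg (S m)
  /-- the contraction over all but one of the blocks `X ^ m` of `X ^ (k m + r) = (X ^ m) ^ k × X ^ r` is
  a correspondence of `X ^ m` -/
  contr_mem : ∀ k m r, ∀ x ∈ A (k * m + r), ∀ w ∈ A' (k * m + r), ∀ b : Fin k,
    contr b (x ∘ (blocks ι k m r).symm) (w ∘ (blocks ι k m r).symm) ∈ S m

section

variable {ι : Type*} [Fintype ι] [DecidableEq ι]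

omit [Fintype ι] [DecidableEq ι] in
lemma powEig_blocks (α : ι → G) (k m r : ℕ) (u : Fin (k * m + r) → ι) :
    frob (powEig α m) (powEig α r) (blocks ι k m r u) = powEig α (k * m + r) u := by
  rw [frob, powEig, powEig, Fin.prod_univ_add, ← finProdFinEquiv.prod_comp, Fintype.prod_prod_type]
  rfl

lemma half_powers [CharZero K] [IsAlgClosed K] {α : ι → G} (𝒜 : CycleClasses K α) {m : ℕ}
    (hm : 𝒜.S m ≠ tateCor K (powEig α m)) :
    ∃ N : ℕ, N < Fintype.card ι ^ m ∧ ∀ k r : ℕ,
      2 * finrank K (𝒜.A (k * m + r)) ≤ wordCount α (k * m + r) + Fintype.card ι ^ r * N ^ k := by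
  classical
  obtain ⟨z, hzC, hzS, hz⟩ := exists_not_nilpotent (𝒜.trace_nondeg m) (tateCor_nondeg (powEig α m))
    (𝒜.tateCor m) hm
  refine ⟨finrank K (maxGenEigenspace (Matrix.mulVecLin z : End K ((Fin m → ι) → K)) 0), ?_,
    fun k r => ?_⟩
  · have := finrank_zero_lt hz
    rwa [Fintype.card_fun, Fintype.card_fin] at this
  · let e := LinearEquiv.funCongrLeft K K (blocks ι k m r).symm
    have he : ∀ x, e x = x ∘ (blocks ι k m r).symm := fun _ => rfl
    have h := half_law z (tateCls K (powEig α m) (powEig α r) k)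
      ((𝒜.A (k * m + r)).map (e : _ →ₗ[K] _)) (e '' (𝒜.A' (k * m + r)))
      ?_ (fun b v hv => act_mem hzC b hv) ?_ ?_
    · rw [LinearEquiv.finrank_map_eq, Fintype.card_fun, Fintype.card_fin] at h
      refine h.trans (Nat.add_le_add_right ?_ _)
      refine (finrank_tateCls_le _ _ _).trans (le_of_eq ?_)
      rw [tateRank, wordCount]
      refine Fintype.card_congr ((blocks ι k m r).symm.subtypeEquiv fun u => ?_)
      have h1 := powEig_blocks α k m r ((blocks ι k m r).symm u)
      rw [Equiv.apply_symm_apply] at h1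
      rw [h1]
      rfl
    · rintro _ ⟨x, hx, rfl⟩ u hu
      change x ((blocks ι k m r).symm u) = 0
      apply 𝒜.tate _ x hx
      rwa [← powEig_blocks, Equiv.apply_symm_apply]
    · rintro _ ⟨x, hx, rfl⟩ h
      have hx0 : x = 0 := by
        apply 𝒜.nondeg _ x hx
        intro w hw
        have := h (e w) ⟨w, hw, rfl⟩
        rw [← this, ← (blocks ι k m r).symm.sum_comp]
        rfl
      rw [hx0]
      exact map_zero _
    · rintro _ ⟨x, hx, rfl⟩ _ ⟨w, hw, rfl⟩ b
      exact hzS _ (𝒜.contr_mem k m r x hx w hw b)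

/-- The dichotomy for the powers of one variety. -/
theorem dichotomy [CharZero K] [IsAlgClosed K] {α : ι → G} (𝒜 : CycleClasses K α)
    (σ : Equiv.Perm ι) (hσ : ∀ i, α (σ i) = (α i)⁻¹) {i0 : ι} (h0 : α i0 = 1) :
    (∀ m, 𝒜.S m = tateCor K (powEig α m)) ∨
      ∀ ε : ℝ, 0 < ε → ∀ᶠ n : ℕ in atTop,
        (finrank K (𝒜.A n) : ℝ) ≤ (1 / 2 + ε) * wordCount α n := by
  classical
  by_contra hcon
  push Not at hcon
  obtain ⟨⟨m, hm⟩, ε, hε, hfreq⟩ := hcon
  apply hfreq
  obtain ⟨N, hN, hmain⟩ := half_powers 𝒜 hm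
  set D := Fintype.card ι with hDdef
  have hD1 : 1 ≤ D := Fintype.card_pos_iff.2 ⟨i0⟩
  have hDpos : (0 : ℝ) < D := by exact_mod_cast hD1
  rcases Nat.eq_zero_or_pos m with rfl | hmpos
  · -- `m = 0`
    have hN0 : N = 0 := by
      rw [pow_zero] at hN; omega
    refine Filter.Eventually.of_forall fun n => ?_
    have h := hmain 1 n
    have e : 1 * 0 + n = n := by omega
    rw [e, hN0, pow_one, mul_zero, add_zero] at h
    rw [not_lt]
    have h' : (2 : ℝ) * finrank K (𝒜.A n) ≤ wordCount α n := by exact_mod_cast h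
    have : (0 : ℝ) ≤ ε * wordCount α n := by positivity
    linarith
  -- the error term
  set ρ : ℝ := N / (D : ℝ) ^ m with hρ
  have hρ0 : 0 ≤ ρ := by positivity
  have hρ1 : ρ < 1 := by
    rw [hρ, div_lt_one (by positivity)]; exact_mod_cast hN
  have t1 := tendsto_pow_const_mul_const_pow_of_abs_lt_one D (r := ρ) (by rwa [abs_of_nonneg hρ0])
  have t2 : Tendsto (fun k : ℕ => ((D : ℝ) * (2 * m) ^ D) * ((k : ℝ) ^ D * ρ ^ k)) atTop (𝓝 0) := by
    have := t1.const_mul ((D : ℝ) * (2 * m) ^ D)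
    rwa [mul_zero] at this
  have t3 := t2.eventually (gt_mem_nhds (show (0 : ℝ) < ε by exact hε))
  have t4 : Tendsto (fun n : ℕ => n / m) atTop atTop := Nat.tendsto_div_const_atTop (by omega)
  filter_upwards [t4.eventually t3, t4.eventually (eventually_ge_atTop 1)] with n hn hn1
  rw [not_lt]
  set k := n / m with hk
  set r := n % m with hr
  have hkr : k * m + r = n := by rw [hk, hr, mul_comm]; exact Nat.div_add_mod n m
  have hrm : r < m := Nat.mod_lt _ hmpos
  have h1 := hmain k r
  rw [hkr] at h1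
  have h1' : (2 : ℝ) * finrank K (𝒜.A n) ≤ wordCount α n + D ^ r * N ^ k := by exact_mod_cast h1
  have h2 : (D : ℝ) ^ n ≤ D * (n + 1) ^ D * wordCount α n := by
    exact_mod_cast pow_le_wordCount α σ hσ h0 n
  have hNk : (D : ℝ) ^ r * N ^ k = ρ ^ k * D ^ n := by
    rw [hρ, div_pow, ← hkr, pow_add, mul_comm k m, pow_mul]
    have : ((D : ℝ) ^ m) ^ k ≠ 0 := by positivity
    field_simp
  have hnk : ((n : ℝ) + 1) ^ D ≤ (2 * m) ^ D * k ^ D := by
    rw [← mul_pow]
    have : n + 1 ≤ 2 * m * k := by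
      have : m * 1 ≤ m * k := Nat.mul_le_mul_left m hn1
      nlinarith
    have : ((n : ℝ) + 1) ≤ 2 * m * k := by exact_mod_cast this
    gcongr
  have h3 : (D : ℝ) ^ r * N ^ k ≤ ε * wordCount α n := by
    calc (D : ℝ) ^ r * N ^ k = ρ ^ k * D ^ n := hNk
      _ ≤ ρ ^ k * (D * (n + 1) ^ D * wordCount α n) := by gcongr
      _ ≤ ρ ^ k * (D * ((2 * m) ^ D * k ^ D) * wordCount α n) := by gcongr
      _ = (((D : ℝ) * (2 * m) ^ D) * ((k : ℝ) ^ D * ρ ^ k)) * wordCount α n := by ring
      _ ≤ ε * wordCount α n := mul_le_mul_of_nonneg_right hn.le (by positivity)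
  have : (0 : ℝ) ≤ ε * wordCount α n := by positivity
  linarith

end

end Pool.Agent.E8helper6.TG
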